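import Pool.Agent.Helper51.LT.St

/-!
# Project LT, module NN: exponents are nonnegative
-/

set_option autoImplicit false

namespace Pool.Agent.Helper2.LT

open Complex MeasureTheory Set Metric Filter Topology
open scoped Real ENNReal
open Pool.Agent.Helper51.LT

theorem hNn : StNn := by
  intro β hβ
  by_contra hneg
  rw [not_le] at hneg
  obtain ⟨C, hC⟩ := hβ (fun z => z) ⟨⟨differentiableOn_id, injOn_id _⟩, fun z hz => by
    rw [mem_ball_zero_iff] at hz; exact hz.le⟩
  have hIM : ∀ r : ℝ, IM (fun z : ℂ => z) r = 2 * π := by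
    intro r
    unfold IM
    simp
  have h1 : Tendsto (fun r : ℝ => (1 - r) ^ (-β)) (𝓝[<] 1) (𝓝 0) := by
    have hc : ContinuousAt (fun r : ℝ => (1 - r) ^ (-β)) 1 := by
      refine ContinuousAt.rpow_const (by fun_prop) (Or.inr (by linarith))
    have h2 := hc.tendsto
    simp only [sub_self] at h2
    rw [Real.zero_rpow (by linarith)] at h2
    exact h2.mono_left nhdsWithin_le_nhds
  have h3 : Tendsto (fun r : ℝ => C * (1 - r) ^ (-β)) (𝓝[<] 1) (𝓝 (C * 0)) := h1.const_mul C
  have h4 : (2 * π : ℝ) ≤ C * 0 := by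
    refine ge_of_tendsto h3 ?_
    have h5 : Ioo (0 : ℝ) 1 ∈ 𝓝[<] (1 : ℝ) := Ioo_mem_nhdsLT (by norm_num)
    filter_upwards [h5] with r hr
    have := hC r hr.1 hr.2
    rwa [hIM] at this
  have := Real.pi_pos
  linarith

end Pool.Agent.Helper2.LT
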