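import Pool.Agent.Helper51.LT.St
import Pool.Agent.Helper71.TU.X5aux

/-!
# Project LT, module STP: the step of the first gliding hump
-/

set_option autoImplicit false

namespace Pool.Agent.Helper2.LT

open Complex MeasureTheory Set Metric Filter Topology
open scoped Real ENNReal
open Pool.Agent.Helper51.LT

namespace STP

/-- continuity of the integrand of `IM` -/
theorem cont_deriv {g : ℂ → ℂ} (hg : DifferentiableOn ℂ g (ball 0 1)) {r : ℝ} (h0 : 0 ≤ r)
    (h1 : r < 1) : Continuous fun t : ℝ => ‖deriv g (circleMap 0 r t)‖ := by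
  have hd : ContinuousOn (deriv g) (ball 0 1) := (hg.deriv isOpen_ball).continuousOn
  refine (hd.comp_continuous (continuous_circleMap 0 r) fun t => ?_).norm
  rw [mem_ball_zero_iff, norm_circleMap_zero, abs_of_nonneg h0]
  exact h1

/-- comparison of integral means -/
theorem IM_le {g k : ℂ → ℂ} (hg : DifferentiableOn ℂ g (ball 0 1))
    (hk : DifferentiableOn ℂ k (ball 0 1)) {r s a b : ℝ} (hr0 : 0 ≤ r) (hr1 : r < 1)
    (hs0 : 0 ≤ s) (hs1 : s < 1)
    (h : ∀ t : ℝ, a * ‖deriv g (circleMap 0 r t)‖ - b ≤ ‖deriv k (circleMap 0 s t)‖) :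
    a * IM g r - 2 * π * b ≤ IM k s := by
  unfold IM
  have hg' := cont_deriv hg hr0 hr1
  have hk' := cont_deriv hk hs0 hs1
  have e1 : ∫ t in (0 : ℝ)..(2 * π), (a * ‖deriv g (circleMap 0 r t)‖ - b) =
      a * (∫ t in (0 : ℝ)..(2 * π), ‖deriv g (circleMap 0 r t)‖) - 2 * π * b := by
    rw [intervalIntegral.integral_sub, intervalIntegral.integral_const_mul,
      intervalIntegral.integral_const]
    · simp
    · exact (hg'.const_mul a).intervalIntegrable _ _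
    · exact _root_.intervalIntegrable_const
  rw [← e1]
  refine intervalIntegral.integral_mono_on (by positivity) ?_ ?_ fun t _ => h t
  · exact ((hg'.const_mul a).sub continuous_const).intervalIntegrable _ _
  · exact hk'.intervalIntegrable _ _

theorem norm_le_closed {f : ℂ → ℂ} {R : ℝ} (hR : 1 < R) (hf : DifferentiableOn ℂ f (ball 0 R))
    (hb : ∀ z ∈ ball (0 : ℂ) 1, ‖f z‖ ≤ 1) {w : ℂ} (hw : ‖w‖ ≤ 1) : ‖f w‖ ≤ 1 := by
  have hwR : w ∈ ball (0 : ℂ) R := by rw [mem_ball_zero_iff]; linarith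
  have hc : ContinuousAt f w := (hf w hwR).continuousWithinAt.continuousAt (isOpen_ball.mem_nhds hwR)
  have hcl : w ∈ closure (ball (0 : ℂ) 1) := by
    rw [closure_ball (0 : ℂ) one_ne_zero, mem_closedBall_zero_iff]
    exact hw
  have : (𝓝[ball (0 : ℂ) 1] w).NeBot := mem_closure_iff_nhdsWithin_neBot.1 hcl
  have ht : Tendsto (fun z => ‖f z‖) (𝓝[ball (0 : ℂ) 1] w) (𝓝 ‖f w‖) :=
    (hc.norm.tendsto).mono_left nhdsWithin_le_nhds
  exact le_of_tendsto ht (eventually_mem_nhdsWithin.mono fun z hz => hb z hz)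

end STP

open STP

theorem hStp (hHump : StHump) (hHar : StHar) : StStp := by
  intro β γ hβ0 hβγ hHU f hPP η r j hη hr1
  obtain ⟨⟨R, hR1, hfd, hfi⟩, hf0, hfb⟩ := hPP
  have hsub : closedBall (0 : ℂ) 1 ⊆ ball 0 R := closedBall_subset_ball hR1
  have hdc : ContinuousOn (fun z => ‖deriv f z‖) (closedBall (0 : ℂ) 1) :=
    ((hfd.deriv isOpen_ball).continuousOn.mono hsub).norm
  have hne : (closedBall (0 : ℂ) 1).Nonempty := ⟨0, by simp⟩
  obtain ⟨z₀, hz₀, hmin⟩ := (isCompact_closedBall (0 : ℂ) 1).exists_isMinOn hne hdc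
  obtain ⟨z₁, hz₁, hmax⟩ := (isCompact_closedBall (0 : ℂ) 1).exists_isMaxOn hne hdc
  set c := ‖deriv f z₀‖ with hc
  set lip := ‖deriv f z₁‖ with hlip
  have hc0 : 0 < c := norm_pos_iff.2
    (Pool.TU.X5.deriv_ne_zero_of_injOn isOpen_ball hfd hfi (hsub hz₀))
  have hcle : ∀ w : ℂ, ‖w‖ ≤ 1 → c ≤ ‖deriv f w‖ := fun w hw =>
    hmin (by rwa [mem_closedBall_zero_iff])
  have hlipb : ∀ w : ℂ, ‖w‖ ≤ 1 → ‖deriv f w‖ ≤ lip := fun w hw =>
    hmax (by rwa [mem_closedBall_zero_iff])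
  have hlip0 : 0 ≤ lip := norm_nonneg _
  have hLip : ∀ z w : ℂ, ‖z‖ ≤ 1 → ‖w‖ ≤ 1 → ‖f w - f z‖ ≤ lip * ‖w - z‖ := by
    intro z w hz hw
    refine (convex_closedBall (0 : ℂ) 1).norm_image_sub_le_of_norm_deriv_le
      (fun x hx => ?_) (fun x hx => ?_) (by rwa [mem_closedBall_zero_iff])
      (by rwa [mem_closedBall_zero_iff])
    · exact hfd.differentiableAt (isOpen_ball.mem_nhds (hsub hx))
    · exact hlipb x (by rwa [mem_closedBall_zero_iff] at hx)
  -- parameters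
  have h1r : 0 < 1 - r := by linarith
  set A : ℝ := lip * (2 / (1 - r) + 1) / η + 1 with hA
  have hA0 : 0 < A := by
    have : 0 ≤ lip * (2 / (1 - r) + 1) / η := by positivity
    linarith
  set K : ℝ := 2 ^ (β + 1) * (j + 1) / c with hK
  have hK0 : 0 < K := by positivity
  obtain ⟨h, ρ, lam, hBU, hh0, -, hρ0, hρ1, hAρ, hlam0, hlam1, hdh, hAlam, hIMh⟩ :=
    hHump β γ hβ0 hβγ hHU 1 A K le_rfl
  have hhd : DifferentiableOn ℂ h (ball 0 1) := hBU.1.1
  have hhi : InjOn h (ball 0 1) := hBU.1.2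
  have hhb : ∀ z : ℂ, ‖z‖ < 1 → ‖h z‖ ≤ 1 := fun z hz =>
    hBU.2 z (by rwa [mem_ball_zero_iff])
  set ρ₁ : ℝ := (1 + ρ) / 2 with hρ₁
  have hρ₁0 : 0 < ρ₁ := by rw [hρ₁]; linarith
  have hρ₁1 : ρ₁ < 1 := by rw [hρ₁]; linarith
  have hρρ₁ : ρ < ρ₁ := by rw [hρ₁]; linarith
  set f₁ : ℂ → ℂ := fun z => f (h (ρ₁ * z)) with hf₁
  have hnorm : ∀ z : ℂ, ‖(ρ₁ : ℂ) * z‖ = ρ₁ * ‖z‖ := by
    intro z
    rw [norm_mul, Complex.norm_real, Real.norm_of_nonneg hρ₁0.le]
  have hin : ∀ z ∈ ball (0 : ℂ) (1 / ρ₁), (ρ₁ : ℂ) * z ∈ ball (0 : ℂ) 1 := by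
    intro z hz
    rw [mem_ball_zero_iff] at hz ⊢
    rw [hnorm]
    rw [lt_div_iff₀ hρ₁0] at hz
    linarith
  have hone : 1 < 1 / ρ₁ := by rw [lt_div_iff₀ hρ₁0]; linarith
  have hmaps : MapsTo h (ball 0 1) (ball 0 R) := fun z hz => by
    have := hBU.2 z hz
    rw [mem_ball_zero_iff]; linarith
  have hf₁d : DifferentiableOn ℂ f₁ (ball 0 (1 / ρ₁)) := by
    have h2 : DifferentiableOn ℂ (fun z : ℂ => (ρ₁ : ℂ) * z) (ball 0 (1 / ρ₁)) := by fun_prop
    exact (hfd.comp hhd hmaps).comp h2 hin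
  have hf₁d1 : DifferentiableOn ℂ f₁ (ball 0 1) := hf₁d.mono (ball_subset_ball hone.le)
  have hf₁i : InjOn f₁ (ball 0 (1 / ρ₁)) := by
    intro z hz w hw hzw
    have h3 := hfi (hmaps (hin z hz)) (hmaps (hin w hw)) hzw
    have h4 := hhi (hin z hz) (hin w hw) h3
    exact mul_left_cancel₀ (Complex.ofReal_ne_zero.2 hρ₁0.ne') h4
  have hPP₁ : PP f₁ := by
    refine ⟨⟨1 / ρ₁, hone, hf₁d, hf₁i⟩, ?_, fun z hz => ?_⟩
    · show f (h (ρ₁ * 0)) = 0
      rw [mul_zero, hh0, hf0]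
    · refine norm_le_closed hR1 hfd hfb (hBU.2 _ (hin z (ball_subset_ball hone.le hz)))
  refine ⟨f₁, hPP₁, ?_, ?_⟩
  · intro z hz
    have hz1 : ‖z‖ < 1 := by linarith
    have hw1 : ‖(ρ₁ : ℂ) * z‖ ≤ ‖z‖ := by
      rw [hnorm]; nlinarith [norm_nonneg z]
    have hwb : (ρ₁ : ℂ) * z ∈ ball (0 : ℂ) 1 := by
      rw [mem_ball_zero_iff]; linarith
    have hhar := hHar h lam hBU hh0 hdh hlam0 hlam1 _ hwb
    have e1 : ‖h (ρ₁ * z) - ρ₁ * z‖ ≤ 2 * (1 - lam) / (1 - r) := by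
      rw [le_div_iff₀ h1r]
      have : ‖h (ρ₁ * z) - ρ₁ * z‖ * (1 - r) ≤ (1 - ‖(ρ₁ : ℂ) * z‖) * ‖h (ρ₁ * z) - ρ₁ * z‖ := by
        have h5 := norm_nonneg (h (ρ₁ * z) - ρ₁ * z)
        nlinarith
      linarith
    have e2 : ‖(ρ₁ : ℂ) * z - z‖ ≤ 1 - ρ := by
      have : (ρ₁ : ℂ) * z - z = -(((1 - ρ₁ : ℝ) : ℂ) * z) := by push_cast; ring
      rw [this, norm_neg, norm_mul, Complex.norm_real, Real.norm_of_nonneg (by linarith)]
      have h6 : 1 - ρ₁ ≤ 1 - ρ := by linarith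
      nlinarith [norm_nonneg z]
    have e3 : ‖h (ρ₁ * z) - z‖ ≤ 2 * (1 - lam) / (1 - r) + (1 - ρ) := by
      calc ‖h (ρ₁ * z) - z‖ = ‖(h (ρ₁ * z) - ρ₁ * z) + (ρ₁ * z - z)‖ := by ring_nf
        _ ≤ _ := (norm_add_le _ _).trans (add_le_add e1 e2)
    have e4 : ‖f (h (ρ₁ * z)) - f z‖ ≤ lip * ‖h (ρ₁ * z) - z‖ :=
      hLip z _ hz1.le (hhb _ (by rwa [mem_ball_zero_iff] at hwb))
    have e5 : 1 - lam ≤ 1 / A := by rw [le_div_iff₀ hA0]; linarith
    have e6 : 1 - ρ ≤ 1 / A := by rw [le_div_iff₀ hA0]; linarith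
    have e7 : 2 * (1 - lam) / (1 - r) + (1 - ρ) ≤ (2 / (1 - r) + 1) / A := by
      have h7 : 2 * (1 - lam) / (1 - r) ≤ 2 / (1 - r) * (1 / A) := by
        rw [mul_div_right_comm]
        exact mul_le_mul_of_nonneg_left e5 (by positivity)
      calc 2 * (1 - lam) / (1 - r) + (1 - ρ) ≤ 2 / (1 - r) * (1 / A) + 1 / A := add_le_add h7 e6
        _ = (2 / (1 - r) + 1) / A := by ring
    have e8 : lip * ((2 / (1 - r) + 1) / A) ≤ η := by
      rw [← mul_div_assoc, div_le_iff₀ hA0, hA]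
      have h8 : lip * (2 / (1 - r) + 1) / η * η = lip * (2 / (1 - r) + 1) := by field_simp
      nlinarith
    calc ‖f₁ z - f z‖ ≤ lip * ‖h (ρ₁ * z) - z‖ := e4
      _ ≤ lip * ((2 / (1 - r) + 1) / A) := mul_le_mul_of_nonneg_left (e3.trans e7) hlip0
      _ ≤ η := e8
  · -- the event
    set r' : ℝ := ρ / ρ₁ with hr'
    have hr'0 : 0 < r' := by positivity
    have hr'1 : r' < 1 := by rw [hr', div_lt_one hρ₁0]; exact hρρ₁
    have hcm : ∀ t : ℝ, (ρ₁ : ℂ) * circleMap 0 r' t = circleMap 0 ρ t := by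
      intro t
      simp only [circleMap_zero, hr']
      push_cast
      have : (ρ₁ : ℂ) ≠ 0 := Complex.ofReal_ne_zero.2 hρ₁0.ne'
      field_simp
    have hder : ∀ z ∈ ball (0 : ℂ) (1 / ρ₁), deriv f₁ z =
        deriv f (h (ρ₁ * z)) * (deriv h (ρ₁ * z) * ρ₁) := by
      intro z hz
      have hh' : HasDerivAt h (deriv h (ρ₁ * z)) (ρ₁ * z) :=
        (hhd.differentiableAt (isOpen_ball.mem_nhds (hin z hz))).hasDerivAt
      have hf' : HasDerivAt f (deriv f (h (ρ₁ * z))) (h (ρ₁ * z)) :=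
        (hfd.differentiableAt (isOpen_ball.mem_nhds (hmaps (hin z hz)))).hasDerivAt
      have hl : HasDerivAt (fun z : ℂ => (ρ₁ : ℂ) * z) (ρ₁ : ℂ) z := by
        simpa using (hasDerivAt_id z).const_mul (ρ₁ : ℂ)
      have h9 : HasDerivAt (fun z : ℂ => h (ρ₁ * z)) (deriv h (ρ₁ * z) * ρ₁) z := hh'.comp z hl
      exact (hf'.comp z h9).deriv
    have hlow : ∀ t : ℝ, c / 2 * ‖deriv h (circleMap 0 ρ t)‖ - 0 ≤
        ‖deriv f₁ (circleMap 0 r' t)‖ := by
      intro t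
      have hmem : circleMap 0 r' t ∈ ball (0 : ℂ) (1 / ρ₁) := by
        rw [mem_ball_zero_iff, norm_circleMap_zero, abs_of_pos hr'0]
        exact hr'1.trans hone
      rw [hder _ hmem, hcm, norm_mul, norm_mul, Complex.norm_real, Real.norm_of_nonneg hρ₁0.le]
      have hb1 : ‖h (circleMap 0 ρ t)‖ ≤ 1 := hhb _ (by
        rw [norm_circleMap_zero, abs_of_pos hρ0]; exact hρ1)
      have hb2 := hcle _ hb1
      have hb3 := norm_nonneg (deriv h (circleMap 0 ρ t))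
      have hb4 : (1 : ℝ) / 2 ≤ ρ₁ := by rw [hρ₁]; linarith
      have hb5 : c * (‖deriv h (circleMap 0 ρ t)‖ * (1 / 2)) ≤
          ‖deriv f (h (circleMap 0 ρ t))‖ * (‖deriv h (circleMap 0 ρ t)‖ * ρ₁) :=
        mul_le_mul hb2 (mul_le_mul_of_nonneg_left hb4 hb3) (by positivity) (norm_nonneg _)
      linarith
    have hIM₁ : c / 2 * IM h ρ ≤ IM f₁ r' := by
      have := IM_le hhd hf₁d1 hρ0.le hρ1 hr'0.le hr'1 hlow
      linarith
    have h1r' : (1 - ρ) / 2 ≤ 1 - r' := by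
      rw [hr']
      have : 1 - ρ / ρ₁ = (1 - ρ) / (1 + ρ) := by
        rw [hρ₁]
        have h10 : (1 + ρ) ≠ 0 := by linarith
        field_simp
        ring
      rw [this]
      exact div_le_div_of_nonneg_left (by linarith) (by linarith) (by linarith)
    have h1r'0 : 0 < 1 - r' := by linarith
    have hpw : (1 - r') ^ (-β) ≤ 2 ^ β * (1 - ρ) ^ (-β) := by
      have h11 : (1 - r') ^ (-β) ≤ ((1 - ρ) / 2) ^ (-β) :=
        Real.rpow_le_rpow_of_nonpos (by linarith) h1r' (by linarith)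
      refine h11.trans (le_of_eq ?_)
      rw [Real.div_rpow (by linarith) (by norm_num), Real.rpow_neg (by norm_num : (0:ℝ) ≤ 2)]
      have h12 : (2 : ℝ) ^ β ≠ 0 := by positivity
      field_simp
    have hbig : (j + 1 : ℝ) * (1 - r') ^ (-β) < IM f₁ r' := by
      have h13 : c / 2 * (K * (1 - ρ) ^ (-β)) < c / 2 * IM h ρ :=
        mul_lt_mul_of_pos_left hIMh (by positivity)
      have h14 : c / 2 * (K * (1 - ρ) ^ (-β)) = (j + 1) * (2 ^ β * (1 - ρ) ^ (-β)) := by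
        rw [hK, Real.rpow_add (by norm_num : (0:ℝ) < 2), Real.rpow_one]
        field_simp
      have h15 : (j + 1 : ℝ) * (1 - r') ^ (-β) ≤ (j + 1) * (2 ^ β * (1 - ρ) ^ (-β)) :=
        mul_le_mul_of_nonneg_left hpw (by positivity)
      linarith
    have hge1 : 1 ≤ (1 - r') ^ (-β) :=
      Real.one_le_rpow_of_pos_of_le_one_of_nonpos h1r'0 (by linarith) (by linarith)
    refine ⟨(1 - r') / (8 * π), by positivity, (1 + r') / 2, by linarith, by linarith, ?_⟩
    intro F hF hclose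
    refine ⟨r', hr'0, hr'1, ?_⟩
    have hpi := Real.pi_pos
    have hcau : ∀ t : ℝ, 1 * ‖deriv f₁ (circleMap 0 r' t)‖ - 1 / (4 * π) ≤
        ‖deriv F (circleMap 0 r' t)‖ := by
      intro t
      set z := circleMap 0 r' t with hz
      have hzn : ‖z‖ = r' := by rw [hz, norm_circleMap_zero, abs_of_pos hr'0]
      have hs : closedBall z ((1 - r') / 2) ⊆ closedBall (0 : ℂ) ((1 + r') / 2) := by
        intro w hw
        rw [mem_closedBall_zero_iff]
        rw [mem_closedBall, dist_eq_norm] at hw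
        calc ‖w‖ = ‖(w - z) + z‖ := by ring_nf
          _ ≤ (1 - r') / 2 + r' := (norm_add_le _ _).trans (add_le_add hw hzn.le)
          _ = (1 + r') / 2 := by ring
      have hs2 : closedBall z ((1 - r') / 2) ⊆ ball (0 : ℂ) 1 :=
        hs.trans (closedBall_subset_ball (by linarith))
      have hdiff : DifferentiableOn ℂ (fun w => F w - f₁ w) (ball 0 1) := hF.sub hf₁d1
      have hcl : DiffContOnCl ℂ (fun w => F w - f₁ w) (ball z ((1 - r') / 2)) :=
        hdiff.diffContOnCl_ball hs2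
      have hb := Complex.norm_deriv_le_of_forall_mem_sphere_norm_le
        (f := fun w => F w - f₁ w) (c := z) (R := (1 - r') / 2) (C := (1 - r') / (8 * π))
        (by linarith) hcl fun w hw => hclose w (by
          have := hs (sphere_subset_closedBall hw)
          rwa [mem_closedBall_zero_iff] at this)
      have hzb : z ∈ ball (0 : ℂ) 1 := by rw [mem_ball_zero_iff, hzn]; exact hr'1
      have hds : deriv (fun w => F w - f₁ w) z = deriv F z - deriv f₁ z :=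
        deriv_fun_sub (hF.differentiableAt (isOpen_ball.mem_nhds hzb))
          (hf₁d1.differentiableAt (isOpen_ball.mem_nhds hzb))
      rw [hds] at hb
      have hval : (1 - r') / (8 * π) / ((1 - r') / 2) = 1 / (4 * π) := by
        field_simp
        norm_num
      rw [hval] at hb
      have htri : ‖deriv f₁ z‖ ≤ ‖deriv F z‖ + ‖deriv F z - deriv f₁ z‖ := by
        calc ‖deriv f₁ z‖ = ‖deriv F z - (deriv F z - deriv f₁ z)‖ := by ring_nf
          _ ≤ _ := norm_sub_le _ _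
      linarith
    have hfin := IM_le hf₁d1 hF hr'0.le hr'1 hr'0.le hr'1 hcau
    have hv : 2 * π * (1 / (4 * π)) = 1 / 2 := by field_simp; norm_num
    rw [hv] at hfin
    have h16 : (j + 1 : ℝ) * (1 - r') ^ (-β) = j * (1 - r') ^ (-β) + (1 - r') ^ (-β) := by ring
    linarith

end Pool.Agent.Helper2.LT
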